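import Pool.Agent.H44.GHK.IPT
import Pool.Agent.H16.GZ.Col0

/-!
Board ghk (MP_52e316_nt), row QBD, first part: the change of variables near `1`.
-/

set_option autoImplicit false

namespace Pool.Agent.H44.GHK

open MeasureTheory Filter Pool.Agent.H34.GM Pool.Agent.H34.GZ Pool.Agent.H34.GU Pool.Agent.H34.GA
  Pool.Agent.H68.GHK
open Pool.Agent.H90.GA (sz_nn le_sz sz_le sz_mul inv_near meas_F meas_F1 fin_D int_sq int_mul
  det_ne_D det_inv_ne)
open Pool.Agent.H23.GHK (Ivf ivf_of ivf_tr trf_hec det_mul_ne intv_o)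

/-- a matrix as a point of `V m` -/
def vm {m : ℕ} (a : Mat m) : V m := fun i j => a i j

theorem mt_vm {m : ℕ} (a : Mat m) : mt (vm a) = a := rfl

theorem cont_mt (m : ℕ) : Continuous (fun z : V m => (mt z : Mat m)) := continuous_id

theorem cont_vm (m : ℕ) : Continuous (fun z : Mat m => vm z) := continuous_id

theorem bn_ball (m : ℕ) (r : ℝ) : Bn m r = Metric.closedBall (vm (1 : Mat m)) r := by
  ext z
  rw [Metric.mem_closedBall, dist_eq_norm]
  rfl

theorem bn_meas (m : ℕ) (r : ℝ) : MeasurableSet (Bn m r) := by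
  rw [bn_ball]
  exact Metric.isClosed_closedBall.measurableSet

theorem bn_compact (m : ℕ) (r : ℝ) : IsCompact (Bn m r) := by
  rw [bn_ball]
  exact isCompact_closedBall _ _

theorem bn_fin (m : ℕ) (r : ℝ) : (volume : Measure (V m)) (Bn m r) < ⊤ :=
  (bn_compact m r).measure_lt_top

theorem bn_mono {m : ℕ} {r r' : ℝ} (h : r ≤ r') : Bn m r ⊆ Bn m r' := fun _ hz => le_trans hz h

theorem det_open (m : ℕ) : IsOpen {z : V m | (mt z).det ≠ 0} :=
  isOpen_ne_fun (Pool.Agent.H69.GA.cfa_det m) continuous_const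

/-- near `1` the two measures are comparable -/
theorem hm_vol (m : ℕ) (hm1 : 1 ≤ m) : ∃ C : ℝ, 1 ≤ C ∧ ∀ f : V m → ENNReal, Measurable f →
    ∀ r : ℝ, 2 * m * r ≤ 1 →
    ∫⁻ z in Bn m r, f z ≤ ENNReal.ofReal C * ∫⁻ z in Bn m r, f z ∂(hm m) ∧
    ∫⁻ z in Bn m r, f z ∂(hm m) ≤ ENNReal.ofReal C * ∫⁻ z in Bn m r, f z := by
  have hm0 : (0 : ℝ) < m := by exact_mod_cast hm1
  obtain ⟨K, hK⟩ : ∃ K : Set (V m), K = Bn m (1 / (2 * m)) := ⟨_, rfl⟩
  have hKc : IsCompact K := by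
    rw [hK]
    exact bn_compact _ _
  have hdet : ∀ z ∈ K, (mt z).det ≠ 0 := by
    intro z hz
    rw [hK] at hz
    refine (inv_near hm1 (show sz (mt z - 1) ≤ 1 / (2 * m) from hz) ?_).1
    rw [mul_one_div, div_le_div_iff₀ (by positivity) (by norm_num)]
    linarith
  have hcd : Continuous (fun z : V m => (|(mt z).det| ^ m)) :=
    (Pool.Agent.H69.GA.cfa_det m).abs.pow m
  have hci : ContinuousOn (fun z : V m => (|(mt z).det| ^ m)⁻¹) K := by
    refine hcd.continuousOn.inv₀ fun z hz => ?_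
    have := hdet z hz
    positivity
  obtain ⟨A, hA⟩ := hKc.exists_bound_of_continuousOn hcd.continuousOn
  obtain ⟨B, hB⟩ := hKc.exists_bound_of_continuousOn hci
  refine ⟨max 1 (max A B), le_max_left _ _, ?_⟩
  intro f hf r hr
  obtain ⟨C, hC⟩ : ∃ C : ℝ, C = max 1 (max A B) := ⟨_, rfl⟩
  have hCA : A ≤ C := by
    rw [hC]
    exact (le_max_left _ _).trans (le_max_right _ _)
  have hCB : B ≤ C := by
    rw [hC]
    exact (le_max_right _ _).trans (le_max_right _ _)
  have hC0 : 0 ≤ C := by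
    rw [hC]
    exact zero_le_one.trans (le_max_left _ _)
  rw [← hC]
  have hsub : Bn m r ⊆ K := by
    rw [hK]
    refine bn_mono ?_
    rw [le_div_iff₀ (by positivity)]
    linarith
  have hdm : Measurable (fun z : V m => ENNReal.ofReal ((|(mt z).det| ^ m)⁻¹)) :=
    (hcd.measurable.inv).ennreal_ofReal
  have e1 : ∫⁻ z in Bn m r, f z ∂(hm m) =
      ∫⁻ z in Bn m r, ENNReal.ofReal ((|(mt z).det| ^ m)⁻¹) * f z := by
    unfold hm
    rw [restrict_withDensity (bn_meas m r), lintegral_withDensity_eq_lintegral_mul _ hdm hf]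
    rfl
  rw [e1]
  constructor
  · have hmf : Measurable (fun z : V m => ENNReal.ofReal ((|(mt z).det| ^ m)⁻¹) * f z) :=
      hdm.mul hf
    rw [← lintegral_const_mul _ hmf]
    refine setLIntegral_mono' (bn_meas m r) fun z hz => ?_
    have h1 := hA z (hsub hz)
    have hd := hdet z (hsub hz)
    have hp : 0 < |(mt z).det| ^ m := by positivity
    have h2 : 1 ≤ C * (|(mt z).det| ^ m)⁻¹ := by
      rw [← div_eq_mul_inv, le_div_iff₀ hp, one_mul]
      refine le_trans ?_ hCA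
      exact (le_abs_self _).trans h1
    calc f z = 1 * f z := (one_mul _).symm
      _ ≤ ENNReal.ofReal (C * (|(mt z).det| ^ m)⁻¹) * f z := by
          gcongr
          rw [← ENNReal.ofReal_one]
          exact ENNReal.ofReal_le_ofReal h2
      _ = _ := by
          rw [ENNReal.ofReal_mul hC0, mul_assoc]
  · rw [← lintegral_const_mul _ hf]
    refine setLIntegral_mono' (bn_meas m r) fun z hz => ?_
    have h1 := hB z (hsub hz)
    gcongr
    exact ((le_abs_self _).trans h1).trans hCB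

theorem sz_add {m : ℕ} (a b : Mat m) : sz (a + b) ≤ sz a + sz b := by
  refine sz_le (add_nonneg (sz_nn _) (sz_nn _)) fun i j => ?_
  rw [Matrix.add_apply]
  exact (abs_add_le _ _).trans (add_le_add (le_sz _ _ _) (le_sz _ _ _))

/-- products of matrices near `1` -/
theorem sz_prod {m : ℕ} (a b : Mat m) {s t : ℝ} (hs : sz (a - 1) ≤ s) (ht : sz (b - 1) ≤ t)
    (hmt : (m : ℝ) * t ≤ 1) : sz (a * b - 1) ≤ 2 * s + t := by
  have hs0 := (sz_nn _).trans hs
  have e : a * b - 1 = (a - 1) * (b - 1) + (a - 1) + (b - 1) := by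
    noncomm_ring
  rw [e]
  have h1 := sz_add ((a - 1) * (b - 1) + (a - 1)) (b - 1)
  have h2 := sz_add ((a - 1) * (b - 1)) (a - 1)
  have h3 := sz_mul (a - 1) (b - 1)
  have h4 : (m : ℝ) * sz (a - 1) * sz (b - 1) ≤ s := by
    calc (m : ℝ) * sz (a - 1) * sz (b - 1) = sz (a - 1) * (m * sz (b - 1)) := by ring
      _ ≤ s * 1 := by
          refine mul_le_mul hs ?_ (by have := sz_nn (b - 1); positivity) hs0
          exact (mul_le_mul_of_nonneg_left ht (by positivity)).trans hmt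
      _ = s := mul_one s
  linarith

/-- the change of variables near `1` -/
theorem sub_near (hHAR : T_HAR) (m : ℕ) (hm1 : 1 ≤ m) : ∃ C : ℝ, 1 ≤ C ∧
    ∀ f : V m → ENNReal, Measurable f → ∀ r t : ℝ, 0 < t → 16 * t ≤ r → 32 * m * t ≤ 1 →
    ∀ u' w : Mat m, sz (u' - 1) ≤ t → sz (w - 1) ≤ t →
      ∫⁻ u in Bn m t, f (vm (u'⁻¹ * w * mt u)) ≤ ENNReal.ofReal C * ∫⁻ v in Bn m r, f v := by
  obtain ⟨C, hC, h⟩ := hm_vol m hm1
  have hm0 : (0 : ℝ) < m := by exact_mod_cast hm1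
  have hm1' : (1 : ℝ) ≤ m := by exact_mod_cast hm1
  refine ⟨C * C, by nlinarith, ?_⟩
  intro f hf r t ht htr hmt u' w hu' hw
  have hmt0 : 0 < (m : ℝ) * t := by positivity
  obtain ⟨hud, hui⟩ := inv_near hm1 hu' (by nlinarith)
  have hwd := (inv_near hm1 hw (by nlinarith)).1
  have hA : (u'⁻¹ * w).det ≠ 0 := det_mul_ne (det_inv_ne hud) hwd
  have hcA : Continuous (fun u : V m => vm (u'⁻¹ * w * mt u)) :=
    (cont_vm m).comp (continuous_const.matrix_mul (cont_mt m))
  have hs1 : sz (u'⁻¹ * w - 1) ≤ 5 * t := by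
    have := sz_prod _ _ hui hw (by nlinarith)
    linarith
  -- from the Lebesgue measure to the Haar measure
  have h1 := (h (fun u => f (vm (u'⁻¹ * w * mt u))) (hf.comp hcA.measurable) t (by linarith)).1
  obtain ⟨r', hr'⟩ : ∃ r' : ℝ, r' = 16 * t := ⟨_, rfl⟩
  obtain ⟨g, hg⟩ : ∃ g : V m → ENNReal, g = (Bn m r').indicator f := ⟨_, rfl⟩
  have hgm : Measurable g := by
    rw [hg]
    exact hf.indicator (bn_meas m r')
  have h2 : ∫⁻ u in Bn m t, f (vm (u'⁻¹ * w * mt u)) ∂(hm m) ≤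
      ∫⁻ u, g (vm (u'⁻¹ * w * mt u)) ∂(hm m) := by
    rw [← lintegral_indicator (bn_meas m t)]
    refine lintegral_mono fun u => ?_
    by_cases hu : u ∈ Bn m t
    · rw [Set.indicator_of_mem hu]
      have h3 : vm (u'⁻¹ * w * mt u) ∈ Bn m r' := by
        show sz (u'⁻¹ * w * mt u - 1) ≤ r'
        refine le_trans (sz_prod _ _ hs1 hu (by nlinarith)) ?_
        rw [hr']
        linarith
      rw [hg, Set.indicator_of_mem h3]
    · rw [Set.indicator_of_notMem hu]
      exact bot_le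
  have h3 : ∫⁻ u, g (vm (u'⁻¹ * w * mt u)) ∂(hm m) = ∫⁻ u, g u ∂(hm m) :=
    ((hHAR m hm1).1 _ hA g hgm).1
  have h4 : ∫⁻ u, g u ∂(hm m) = ∫⁻ u in Bn m r', f u ∂(hm m) := by
    rw [hg, lintegral_indicator (bn_meas m r')]
  have h5 := (h f hf r' (by rw [hr']; linarith)).2
  have h6 : ∫⁻ z in Bn m r', f z ≤ ∫⁻ z in Bn m r, f z :=
    lintegral_mono_set (bn_mono (by rw [hr']; exact htr))
  have hC0 : 0 ≤ C := by linarith
  calc ∫⁻ u in Bn m t, f (vm (u'⁻¹ * w * mt u))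
      ≤ ENNReal.ofReal C * ∫⁻ u in Bn m t, f (vm (u'⁻¹ * w * mt u)) ∂(hm m) := h1
    _ ≤ ENNReal.ofReal C * (ENNReal.ofReal C * ∫⁻ z in Bn m r, f z) := by
        gcongr
        exact (h2.trans (le_of_eq (h3.trans h4))).trans (h5.trans (by gcongr))
    _ = _ := by rw [ENNReal.ofReal_mul hC0, mul_assoc]

end Pool.Agent.H44.GHK
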